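import Mathlib
import Pool.Agent.E8helper13.Art.Fin

/-!
# Artin's holomorphy conjecture at double zeros: a criterion for arbitrary Galois groups

`Pool.Agent.H541R3.ART.Irr G` is the set of irreducible complex characters of the finite group `G`.

`Pool.Agent.H541R3.ART.ArtinData G s₀` is a family of functions with the formal properties of the
Artin L-functions of a Galois extension `E/K` with group `G` near a point `s₀ ≠ 1`: functions
`L χ` for the irreducible characters `χ` of `G` and `Lin H ψ` for the linear characters `ψ` of the
subgroups `H`, such that `L χ` is meromorphic and not identically zero near `s₀` (Brauer), `Lin H ψ`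
has no pole at `s₀` (Artin reciprocity and Hecke), and `Lin H ψ` is the product of the
`L χ ^ ⟨χ|_H, ψ⟩` (induction). So `Lin H ψ` stands for the Hecke L-function of `ψ` over the fixed
field of `H`, and `Lin H 1` for the Dedekind zeta function of the fixed field of `H`.

For a linear character `μ` of a normal subgroup `N` of `G`, the irreducible character `χ` of `G`
lies over `μ` if the restriction of `χ` to `N` contains `μ`, that is, if
`∑ᶠ n : N, χ n * (μ n)⁻¹ ≠ 0`; `Pool.Agent.R362.stab N μ` is the stabilizer of `μ` in `G`, and
`Pool.Agent.E8helper13.Art.resStab N μ` is the intersection of the derived series of the stabilizer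
(its smallest normal subgroup with solvable quotient), as a subgroup of `G`.
`Pool.Agent.Y788.res G` is the intersection of the derived series of `G`.

`Pool.Agent.E8helper13.Art.IsDouble A N μ g a`: `μ` has an extension `l` to the subgroup generated
by `N` and `g` such that `l g = a` and the Hecke L-function of `l` has a zero of order exactly two
at `s₀`. For `N = ⊥` and `a = 1` this says that the zeta function of the fixed field of `g` has a
double zero at `s₀`.

`Pool.Agent.Y788.V.LTData A` are functions with the formal properties of the Artin L-functions of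
the irreducible characters of degree two with solvable image of the subgroups of `G`; they have no
pole at `s₀` by the theorem of Langlands and Tunnell. They are not used in (1), (3) and (4).
-/

set_option autoImplicit false

open Pool.Agent.H541R3.ART Pool.Agent.Y788 Pool.Agent.Y788.V Pool.Agent.R362
  Pool.Agent.E8helper13.Art

/-- Let `G` be the Galois group of `E/K`, an arbitrary finite group. Let `μ` be a linear character
of a normal subgroup `N` of `G` whose Hecke L-function has a zero of order two at `s₀` (for
`N = 1`: the zeta function of `E` has a double zero at `s₀`). Call `g` double with the value `a` if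
`μ` extends to a linear character `l` of `N ⟨g⟩` with `l g = a` whose Hecke L-function still has a
zero of order two at `s₀`.

(1) No `L χ` with `χ` over `μ` has a pole at `s₀` if and only if the double elements are closed under
multiplication: if `g` is double with the value `a` and `h` is double with the value `b`, then `g h`
is double with the value `a b`.

(2) With the theorem of Langlands and Tunnell: no `L χ` with `χ` over `μ` has a pole at `s₀` if and
only if the elements of the solvable residual of the stabilizer of `μ` which are double with the
value `1` are closed under multiplication.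

(3) If the elements of this residual which are double with the value `1` are closed under
multiplication and do not exhaust it, then exactly one `L χ` with `χ` over `μ` is not holomorphic
and nonzero at `s₀`: it has a simple zero, and the degree of `χ` is twice the index of the
stabilizer.

(4) The case `N = 1` of (2) and (3) without double elements: if the zeta function of `E` has a
double zero at `s₀` and no zeta function of the fixed field of an element of prime order of the
solvable residual of `G` has a double zero at `s₀`, then no `L χ` has a pole at `s₀` (by the theorem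
of Langlands and Tunnell), and if `G` is not solvable, exactly one `L χ` is not holomorphic and
nonzero at `s₀`, with a simple zero and `χ` of degree two. -/
theorem Pool.Agent.Results.MP_d2121a_nt.DoubleZerosH13.result
    (G : Type) [Group G] [Finite G] (s₀ : ℂ) (A : ArtinData G s₀) :
    (∀ (N : Subgroup G) [N.Normal] (μ : N →* ℂˣ), meromorphicOrderAt (A.Lin N μ) s₀ = 2 →
      ((∀ χ ∈ Irr G, (∑ᶠ n : N, χ n * (((μ n)⁻¹ : ℂˣ) : ℂ) ≠ 0) →
          0 ≤ meromorphicOrderAt (A.L χ) s₀) ↔
        ∀ (g h : G) (a b : ℂˣ), IsDouble A N μ g a → IsDouble A N μ h b →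
          IsDouble A N μ (g * h) (a * b)) ∧
      (Nonempty (LTData A) →
        ((∀ χ ∈ Irr G, (∑ᶠ n : N, χ n * (((μ n)⁻¹ : ℂˣ) : ℂ) ≠ 0) →
            0 ≤ meromorphicOrderAt (A.L χ) s₀) ↔
          ∀ g ∈ resStab N μ, ∀ h ∈ resStab N μ, IsDouble A N μ g 1 → IsDouble A N μ h 1 →
            IsDouble A N μ (g * h) 1)) ∧
      ((∀ g ∈ resStab N μ, ∀ h ∈ resStab N μ, IsDouble A N μ g 1 → IsDouble A N μ h 1 →
          IsDouble A N μ (g * h) 1) →
        (∃ g ∈ resStab N μ, ¬ IsDouble A N μ g 1) →
        ∃ χ₀ ∈ Irr G, (∑ᶠ n : N, χ₀ n * (((μ n)⁻¹ : ℂˣ) : ℂ) ≠ 0) ∧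
          χ₀ 1 = 2 * (stab N μ).index ∧ meromorphicOrderAt (A.L χ₀) s₀ = 1 ∧
          ∀ χ ∈ Irr G, (∑ᶠ n : N, χ n * (((μ n)⁻¹ : ℂˣ) : ℂ) ≠ 0) → χ ≠ χ₀ →
            meromorphicOrderAt (A.L χ) s₀ = 0)) ∧
    (meromorphicOrderAt (A.Lin ⊥ 1) s₀ = 2 →
      (∀ x ∈ res G, (orderOf x).Prime →
        meromorphicOrderAt (A.Lin (Subgroup.zpowers x) 1) s₀ ≠ 2) →
      (Nonempty (LTData A) → ∀ χ ∈ Irr G, 0 ≤ meromorphicOrderAt (A.L χ) s₀) ∧
      (res G ≠ ⊥ → ∃ χ₀ ∈ Irr G, χ₀ 1 = 2 ∧ meromorphicOrderAt (A.L χ₀) s₀ = 1 ∧
        ∀ χ ∈ Irr G, χ ≠ χ₀ → meromorphicOrderAt (A.L χ) s₀ = 0)) :=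
  ⟨fun N _ μ h2 => criterion' A N μ h2, absolute A⟩
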